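import Pool.Agent.N327.Perc.Two

set_option autoImplicit false

open MeasureTheory Set Filter
open scoped Topology

/-!
Site percolation on `Z^d`, `d ≥ 2`, at the critical point: if `θ(p_c) > 0`, the mean chemical
distance (restricted to the event that the vertices are connected) grows faster than linearly.
-/

namespace Pool.Agent.Results.MP_e13933_pr.ChemicalDistance

noncomputable section

/-- Vertices of `Z^d`. -/
abbrev V (d : ℕ) : Type := Fin d → ℤ

/-- The maximum norm. -/
def nrm {d : ℕ} (v : V d) : ℕ := Finset.univ.sup (fun i => (v i).natAbs)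

/-- The box of radius `N` around the origin; it has `(2 * N + 1) ^ d` vertices. -/
def box (d N : ℕ) : Set (V d) := {x | ∀ i, |x i| ≤ N}

/-- The open subgraph inside the region `S`: two vertices at Euclidean distance one are joined if
both are open (`ω x = true`) and in `S`. -/
def openGraph {d : ℕ} (ω : V d → Bool) (S : Set (V d)) : SimpleGraph (V d) where
  Adj x y := ∑ i, |x i - y i| = 1 ∧ (x ∈ S ∧ ω x = true) ∧ (y ∈ S ∧ ω y = true)
  symm := ⟨fun x y ⟨h1, h2, h3⟩ => ⟨by simpa only [abs_sub_comm] using h1, h3, h2⟩⟩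
  loopless := ⟨fun x h => by simpa using h.1⟩

/-- The open cluster of `x` inside the region `S` (empty if `x` is closed). -/
def cluster {d : ℕ} (ω : V d → Bool) (S : Set (V d)) (x : V d) : Set (V d) :=
  {y | (ω x = true ∧ x ∈ S) ∧ (openGraph ω S).Reachable x y}

/-- The chemical distance: the number of steps of a shortest open path from `x` to `y`
(zero if there is no open path from `x` to `y`). -/
def chem {d : ℕ} (ω : V d → Bool) (x y : V d) : ℕ := (openGraph ω univ).dist x y

/-- Site percolation with parameter `p`: all vertices are open with probability `p`,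
independently. -/
def P (d : ℕ) (p : unitInterval) : Measure (V d → Bool) :=
  Measure.infinitePi (fun _ : V d =>
    ENNReal.ofReal (p : ℝ) • Measure.dirac true + ENNReal.ofReal (1 - (p : ℝ)) • Measure.dirac false)

/-- The percolation probability `θ_d(p)`. -/
def theta (d : ℕ) (p : unitInterval) : ℝ := (P d p).real {ω | (cluster ω univ 0).Infinite}

/-- The critical point `p_c(d)`, the supremum of the parameters with `θ_d(p) = 0`. -/
def pc (d : ℕ) : unitInterval :=
  ⟨sSup {t : ℝ | ∃ q : unitInterval, (q : ℝ) = t ∧ theta d q = 0}, by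
    constructor
    · apply Real.sSup_nonneg
      rintro x ⟨q, rfl, _⟩
      exact q.2.1
    · apply Real.sSup_le
      · rintro x ⟨q, rfl, _⟩
        exact q.2.2
      · exact zero_le_one⟩

lemma nd_mem {d : ℕ} {ω : V d → Bool} {x y : V d} :
    (∀ c ∈ (Pool.Agent.Y990.CB.siteM d).nd x y, ω c = true) ↔ ω x = true ∧ ω y = true := by
  show (∀ c : V d, c ∈ ({x, y} : Finset (V d)) → ω c = true) ↔ _
  simp only [Finset.mem_insert, Finset.mem_singleton, forall_eq_or_imp, forall_eq]

open Pool.Agent.Y990.CB in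
lemma adj_iff {d : ℕ} (ω : V d → Bool) (S : Set (V d)) (x y : V d) :
    (openGraph ω S).Adj x y ↔ (G (siteM d) ω S).Adj x y := by
  show (∑ i, |x i - y i| = 1 ∧ (x ∈ S ∧ ω x = true) ∧ (y ∈ S ∧ ω y = true)) ↔
    (∑ i, |x i - y i| = 1 ∧ x ∈ S ∧ y ∈ S ∧ ∀ c ∈ (siteM d).nd x y, ω c = true)
  rw [nd_mem]
  tauto

open Pool.Agent.Y990.CB in
lemma graph_eq {d : ℕ} (ω : V d → Bool) (S : Set (V d)) :
    openGraph ω S = G (siteM d) ω S := by
  ext x y
  exact adj_iff ω S x y

open Pool.Agent.Y990.CB in
lemma cluster_sub {d : ℕ} (ω : V d → Bool) (S : Set (V d)) (x : V d) :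
    cluster ω S x ⊆ cl (siteM d) ω S x := by
  rintro y ⟨-, h⟩
  rw [graph_eq] at h
  exact h

open Pool.Agent.Y990.CB in
lemma infinite_iff {d : ℕ} (ω : V d → Bool) (x : V d) :
    (cluster ω univ x).Infinite ↔ ω ∈ Perc (siteM d) x := by
  constructor
  · intro h
    exact h.mono (cluster_sub ω univ x)
  · intro h
    have hx : ω x = true := by
      obtain ⟨y, hy, hyx⟩ := Set.Infinite.exists_notMem_finset h {x}
      have hyx' : y ≠ x := by simpa using hyx
      have hr : (G (siteM d) ω univ).Reachable x y := hy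
      obtain ⟨q⟩ := hr
      cases q with
      | nil => exact absurd rfl hyx'
      | cons hadj _ => exact (nd_mem.1 hadj.2.2.2).1
    refine Set.Infinite.mono ?_ h
    intro y hy
    refine ⟨⟨hx, mem_univ x⟩, ?_⟩
    rw [graph_eq]
    exact hy

open Pool.Agent.Y990.CB in
lemma P_eq (d : ℕ) (p : unitInterval) : P d p = mu (siteM d) p := rfl

open Pool.Agent.Y990.CB in
lemma theta_eq (d : ℕ) (p : unitInterval) : theta d p = th (siteM d) p := by
  unfold theta th
  rw [P_eq]
  congr 1
  ext ω
  exact infinite_iff ω 0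

open Pool.Agent.Y990.CB in
lemma pc_eq (d : ℕ) : pc d = Pool.Agent.Y990.CB.pc (siteM d) := by
  apply Subtype.ext
  show sSup {t : ℝ | ∃ q : unitInterval, (q : ℝ) = t ∧ theta d q = 0} =
    sSup {x : ℝ | ∃ q : unitInterval, (q : ℝ) = x ∧ th (siteM d) q = 0}
  simp only [theta_eq]

open Pool.Agent.Y990.CB in
lemma box_eq (d N : ℕ) : box d N = Bo (0 : V d) N := by
  ext x
  simp only [box, Bo, mem_ofPred_eq, Pi.zero_apply, sub_zero]

open Pool.Agent.Y990.CB in
lemma chem_eq {d : ℕ} (ω : V d → Bool) (x y : V d) :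
    chem ω x y = (G (siteM d) ω univ).dist x y := by
  unfold chem
  rw [graph_eq]

open Pool.Agent.Y990.CB in
theorem aux (d : ℕ) (hd : 2 ≤ d) (hθ : 0 < theta d (pc d)) :
    Tendsto (fun v : V d => (∫⁻ ω, (chem ω 0 v : ENNReal) ∂(P d (pc d))) / (nrm v : ENNReal))
      cofinite (𝓝 ⊤) := by
  rw [ENNReal.tendsto_nhds_top_iff_nat]
  intro A
  have hθ' : 0 < th (siteM d) (Pool.Agent.Y990.CB.pc (siteM d)) := by
    rwa [← pc_eq, ← theta_eq]
  obtain ⟨N0, h⟩ := finD hd (siteM d) nd_site hθ' (A + 1)
  refine Pool.Agent.N327.Perc.ev_nm (N0 := N0 + 1) (fun v hv => ?_)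
  have h1 := h v (by omega)
  have e : (∫⁻ ω, (chem ω 0 v : ENNReal) ∂(P d (pc d))) =
      ∫⁻ ω, ((G (siteM d) ω univ).dist 0 v : ENNReal)
        ∂(mu (siteM d) (Pool.Agent.Y990.CB.pc (siteM d))) := by
    rw [← pc_eq]
    simp only [chem_eq]
    rfl
  rw [e]
  have hn : nrm v = nm v := rfl
  have h0 : (nrm v : ENNReal) ≠ 0 := by
    rw [hn]
    have : nm v ≠ 0 := by omega
    exact_mod_cast this
  have ht : (nrm v : ENNReal) ≠ ⊤ := ENNReal.natCast_ne_top _
  calc (A : ENNReal) < ((A + 1 : ℕ) : ENNReal) := by exact_mod_cast Nat.lt_succ_self A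
    _ ≤ _ := by
      rw [ENNReal.le_div_iff_mul_le (Or.inl h0) (Or.inl ht), hn]
      exact_mod_cast h1

/-- **Chemical distance at the critical point.** Either there is no percolation at the critical
point, or the mean chemical distance is superlinear. -/
theorem result (d : ℕ) (hd : 2 ≤ d) : theta d (pc d) = 0 ∨
    Tendsto (fun v : V d => (∫⁻ ω, (chem ω 0 v : ENNReal) ∂(P d (pc d))) / (nrm v : ENNReal))
      cofinite (𝓝 ⊤) := by
  rcases eq_or_lt_of_le (show 0 ≤ theta d (pc d) from by unfold theta; exact measureReal_nonneg)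
    with h | h
  · exact Or.inl h.symm
  · exact Or.inr (aux d hd h)

end

end Pool.Agent.Results.MP_e13933_pr.ChemicalDistance
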