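import Pool.Agent.N327.Perc.Two

set_option autoImplicit false

open MeasureTheory Set Filter
open scoped Topology

/-!
Site percolation on `Z^d`, `d ≥ 2`, at the critical point: if `θ(p_c) > 0`, then at every large
scale there are arbitrarily many distinct clusters crossing an annulus of arbitrary aspect ratio,
with a probability bounded from below by an explicit constant.
-/

namespace Pool.Agent.Results.MP_e13933_pr.ManyCrossingClusters

noncomputable section

/-- Vertices of `Z^d`. -/
abbrev V (d : ℕ) : Type := Fin d → ℤ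

/-- The maximum norm. -/
def nrm {d : ℕ} (v : V d) : ℕ := Finset.univ.sup (fun i => (v i).natAbs)

/-- The box of radius `N` around the origin; it has `(2 * N + 1) ^ d` vertices. -/
def box (d N : ℕ) : Set (V d) := {x | ∀ i, |x i| ≤ N}

/-- The open subgraph inside the region `S`: two vertices at Euclidean distance one are joined if
both are open (`ω x = true`) and in `S`. -/
def openGraph {d : ℕ} (ω : V d → Bool) (S : Set (V d)) : SimpleGraph (V d) where
  Adj x y := ∑ i, |x i - y i| = 1 ∧ (x ∈ S ∧ ω x = true) ∧ (y ∈ S ∧ ω y = true)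
  symm := ⟨fun x y ⟨h1, h2, h3⟩ => ⟨by simpa only [abs_sub_comm] using h1, h3, h2⟩⟩
  loopless := ⟨fun x h => by simpa using h.1⟩

/-- The open cluster of `x` inside the region `S` (empty if `x` is closed). -/
def cluster {d : ℕ} (ω : V d → Bool) (S : Set (V d)) (x : V d) : Set (V d) :=
  {y | (ω x = true ∧ x ∈ S) ∧ (openGraph ω S).Reachable x y}

/-- The boundary of the box of radius `N`: the vertices with maximum norm `N`. -/
def sphere (d N : ℕ) : Set (V d) := {x | x ∈ box d N ∧ ∃ i, |x i| = N}

/-- The crossing clusters: the open clusters of the box of radius `n` which meet both the box of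
radius `k` and the boundary of the box of radius `n`. -/
def crossing (d k n : ℕ) (ω : V d → Bool) : Set (Set (V d)) :=
  {C | ∃ x ∈ box d k, C = cluster ω (box d n) x ∧ (C ∩ sphere d n).Nonempty}

/-- Site percolation with parameter `p`: all vertices are open with probability `p`,
independently. -/
def P (d : ℕ) (p : unitInterval) : Measure (V d → Bool) :=
  Measure.infinitePi (fun _ : V d =>
    ENNReal.ofReal (p : ℝ) • Measure.dirac true + ENNReal.ofReal (1 - (p : ℝ)) • Measure.dirac false)

/-- The percolation probability `θ_d(p)`. -/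
def theta (d : ℕ) (p : unitInterval) : ℝ := (P d p).real {ω | (cluster ω univ 0).Infinite}

/-- The critical point `p_c(d)`, the supremum of the parameters with `θ_d(p) = 0`. -/
def pc (d : ℕ) : unitInterval :=
  ⟨sSup {t : ℝ | ∃ q : unitInterval, (q : ℝ) = t ∧ theta d q = 0}, by
    constructor
    · apply Real.sSup_nonneg
      rintro x ⟨q, rfl, _⟩
      exact q.2.1
    · apply Real.sSup_le
      · rintro x ⟨q, rfl, _⟩
        exact q.2.2
      · exact zero_le_one⟩

lemma nd_mem {d : ℕ} {ω : V d → Bool} {x y : V d} :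
    (∀ c ∈ (Pool.Agent.Y990.CB.siteM d).nd x y, ω c = true) ↔ ω x = true ∧ ω y = true := by
  show (∀ c : V d, c ∈ ({x, y} : Finset (V d)) → ω c = true) ↔ _
  simp only [Finset.mem_insert, Finset.mem_singleton, forall_eq_or_imp, forall_eq]

open Pool.Agent.Y990.CB in
lemma adj_iff {d : ℕ} (ω : V d → Bool) (S : Set (V d)) (x y : V d) :
    (openGraph ω S).Adj x y ↔ (G (siteM d) ω S).Adj x y := by
  show (∑ i, |x i - y i| = 1 ∧ (x ∈ S ∧ ω x = true) ∧ (y ∈ S ∧ ω y = true)) ↔
    (∑ i, |x i - y i| = 1 ∧ x ∈ S ∧ y ∈ S ∧ ∀ c ∈ (siteM d).nd x y, ω c = true)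
  rw [nd_mem]
  tauto

open Pool.Agent.Y990.CB in
lemma graph_eq {d : ℕ} (ω : V d → Bool) (S : Set (V d)) :
    openGraph ω S = G (siteM d) ω S := by
  ext x y
  exact adj_iff ω S x y

open Pool.Agent.Y990.CB in
lemma cluster_sub {d : ℕ} (ω : V d → Bool) (S : Set (V d)) (x : V d) :
    cluster ω S x ⊆ cl (siteM d) ω S x := by
  rintro y ⟨-, h⟩
  rw [graph_eq] at h
  exact h

open Pool.Agent.Y990.CB in
lemma infinite_iff {d : ℕ} (ω : V d → Bool) (x : V d) :
    (cluster ω univ x).Infinite ↔ ω ∈ Perc (siteM d) x := by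
  constructor
  · intro h
    exact h.mono (cluster_sub ω univ x)
  · intro h
    have hx : ω x = true := by
      obtain ⟨y, hy, hyx⟩ := Set.Infinite.exists_notMem_finset h {x}
      have hyx' : y ≠ x := by simpa using hyx
      have hr : (G (siteM d) ω univ).Reachable x y := hy
      obtain ⟨q⟩ := hr
      cases q with
      | nil => exact absurd rfl hyx'
      | cons hadj _ => exact (nd_mem.1 hadj.2.2.2).1
    refine Set.Infinite.mono ?_ h
    intro y hy
    refine ⟨⟨hx, mem_univ x⟩, ?_⟩
    rw [graph_eq]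
    exact hy

open Pool.Agent.Y990.CB in
lemma P_eq (d : ℕ) (p : unitInterval) : P d p = mu (siteM d) p := rfl

open Pool.Agent.Y990.CB in
lemma theta_eq (d : ℕ) (p : unitInterval) : theta d p = th (siteM d) p := by
  unfold theta th
  rw [P_eq]
  congr 1
  ext ω
  exact infinite_iff ω 0

open Pool.Agent.Y990.CB in
lemma pc_eq (d : ℕ) : pc d = Pool.Agent.Y990.CB.pc (siteM d) := by
  apply Subtype.ext
  show sSup {t : ℝ | ∃ q : unitInterval, (q : ℝ) = t ∧ theta d q = 0} =
    sSup {x : ℝ | ∃ q : unitInterval, (q : ℝ) = x ∧ th (siteM d) q = 0}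
  simp only [theta_eq]

open Pool.Agent.Y990.CB in
lemma box_eq (d N : ℕ) : box d N = Bo (0 : V d) N := by
  ext x
  simp only [box, Bo, mem_ofPred_eq, Pi.zero_apply, sub_zero]

open Pool.Agent.Y990.CB in
lemma sphere_eq (d N : ℕ) : sphere d N = Fr (0 : V d) N := by
  ext x
  simp only [sphere, Fr, box_eq, mem_ofPred_eq, Pi.zero_apply, sub_zero]

open Pool.Agent.Y990.CB in
lemma cross_of {d N n K : ℕ} (hn : N < n) {ω : V d → Bool} (hω : ω ∈ Cr (siteM d) N n K) :
    (K : ℕ∞) ≤ (crossing d N n ω).encard := by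
  obtain ⟨x, hx, hd⟩ := hω
  have hop : ∀ i, (ω (x i) = true ∧ x i ∈ box d n) ∧
      ∃ y ∈ Fr (0 : V d) n, (G (siteM d) ω (Bo 0 n)).Reachable (x i) y := by
    intro i
    obtain ⟨y, hy, hr⟩ := (hx i).2
    have hne : x i ≠ y := by
      rintro h
      obtain ⟨j, hj⟩ := hy.2
      have h1 := (hx i).1 j
      rw [← h] at hj
      rw [hj] at h1
      have : n ≤ N := by exact_mod_cast h1
      omega
    refine ⟨?_, y, hy, hr⟩
    obtain ⟨q⟩ := hr
    cases q with
    | nil => exact absurd rfl hne
    | cons hadj _ =>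
      refine ⟨(nd_mem.1 hadj.2.2.2).1, ?_⟩
      rw [box_eq]
      exact hadj.2.1
  have hinj : Function.Injective (fun i => cluster ω (box d n) (x i)) := by
    intro i j hij
    by_contra hne
    have h1 : x i ∈ cluster ω (box d n) (x i) :=
      ⟨(hop i).1, SimpleGraph.Reachable.refl _⟩
    have h2 : cluster ω (box d n) (x i) = cluster ω (box d n) (x j) := hij
    rw [h2] at h1
    have h3 := cluster_sub ω _ (x j) h1
    rw [box_eq] at h3
    exact hd j i (Ne.symm hne) h3
  have hsub : range (fun i => cluster ω (box d n) (x i)) ⊆ crossing d N n ω := by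
    rintro _ ⟨i, rfl⟩
    obtain ⟨⟨o1, o2⟩, y, hy, hr⟩ := hop i
    refine ⟨x i, ?_, rfl, y, ⟨⟨o1, o2⟩, ?_⟩, ?_⟩
    · rw [box_eq]
      exact (hx i).1
    · rw [graph_eq, box_eq]
      exact hr
    · rw [sphere_eq]
      exact hy
  calc (K : ℕ∞) = (univ : Set (Fin K)).encard := by simp
    _ = (range (fun i => cluster ω (box d n) (x i))).encard := by
      rw [← image_univ]
      exact (hinj.encard_image _).symm
    _ ≤ _ := encard_le_encard hsub

open Pool.Agent.Y990.CB in
theorem aux (d : ℕ) (hd : 2 ≤ d) (hθ : 0 < theta d (pc d)) (K R : ℕ) (hK : 1 ≤ K)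
    (hR : 2 ≤ R) : ∀ᶠ N : ℕ in atTop, (1 / (2 * 10 ^ 14 * (K : ℝ) * R)) ^ (K * (K - 1) / 2) / 2 ≤
      (P d (pc d)).real {ω | (K : ℕ∞) ≤ (crossing d N (R * N) ω).encard} := by
  have hθ' : 0 < th (siteM d) (Pool.Agent.Y990.CB.pc (siteM d)) := by
    rwa [← pc_eq, ← theta_eq]
  obtain ⟨N0, h⟩ := finC hd (siteM d) nd_site hθ' K R hK (by omega)
  filter_upwards [eventually_ge_atTop (N0 + 1)] with N hN
  have h1 := h N (by omega)
  rw [Nat.choose_two_right] at h1
  refine h1.trans ?_
  rw [← pc_eq]
  refine measureReal_mono ?_ (measure_ne_top _ _)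
  intro ω hω
  exact cross_of (by nlinarith) hω

/-- **Many crossing clusters at the critical point.** Either there is no percolation at the
critical point, or for all `K` and `R` there are `K` distinct clusters crossing from the box of
radius `N` to the boundary of the box of radius `R * N` with probability bounded from below at all
large scales `N`. -/
theorem result (d : ℕ) (hd : 2 ≤ d) : theta d (pc d) = 0 ∨
    ∀ K R : ℕ, 1 ≤ K → 2 ≤ R →
      ∀ᶠ N : ℕ in atTop, (1 / (2 * 10 ^ 14 * (K : ℝ) * R)) ^ (K * (K - 1) / 2) / 2 ≤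
        (P d (pc d)).real {ω | (K : ℕ∞) ≤ (crossing d N (R * N) ω).encard} := by
  rcases eq_or_lt_of_le (show 0 ≤ theta d (pc d) from by unfold theta; exact measureReal_nonneg)
    with h | h
  · exact Or.inl h.symm
  · exact Or.inr (fun K R hK hR => aux d hd h K R hK hR)

end

end Pool.Agent.Results.MP_e13933_pr.ManyCrossingClusters
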