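import Pool.Agent.N327.Perc.Two

set_option autoImplicit false

open MeasureTheory Set Filter
open scoped Topology

/-!
Site percolation on `Z^d`, `d ≥ 2`, at the critical point: a connection between two far away
vertices inside a box of comparable radius is strictly less likely than a connection in the whole
space, if `θ(p_c) > 0`; so continuity of the percolation transition is equivalent to the statement
that the restriction to boxes of radius comparable with the distance does not matter.
-/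

namespace Pool.Agent.Results.MP_e13933_pr.RestrictedConnections

noncomputable section

/-- Vertices of `Z^d`. -/
abbrev V (d : ℕ) : Type := Fin d → ℤ

/-- The maximum norm. -/
def nrm {d : ℕ} (v : V d) : ℕ := Finset.univ.sup (fun i => (v i).natAbs)

/-- The box of radius `N` around the origin; it has `(2 * N + 1) ^ d` vertices. -/
def box (d N : ℕ) : Set (V d) := {x | ∀ i, |x i| ≤ N}

/-- The open subgraph inside the region `S`: two vertices at Euclidean distance one are joined if
both are open (`ω x = true`) and in `S`. -/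
def openGraph {d : ℕ} (ω : V d → Bool) (S : Set (V d)) : SimpleGraph (V d) where
  Adj x y := ∑ i, |x i - y i| = 1 ∧ (x ∈ S ∧ ω x = true) ∧ (y ∈ S ∧ ω y = true)
  symm := ⟨fun x y ⟨h1, h2, h3⟩ => ⟨by simpa only [abs_sub_comm] using h1, h3, h2⟩⟩
  loopless := ⟨fun x h => by simpa using h.1⟩

/-- The open cluster of `x` inside the region `S` (empty if `x` is closed). -/
def cluster {d : ℕ} (ω : V d → Bool) (S : Set (V d)) (x : V d) : Set (V d) :=
  {y | (ω x = true ∧ x ∈ S) ∧ (openGraph ω S).Reachable x y}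

/-- The event that `x` and `y` are connected by an open path inside the region `S`. -/
def conn {d : ℕ} (S : Set (V d)) (x y : V d) : Set (V d → Bool) := {ω | y ∈ cluster ω S x}

/-- Site percolation with parameter `p`: all vertices are open with probability `p`,
independently. -/
def P (d : ℕ) (p : unitInterval) : Measure (V d → Bool) :=
  Measure.infinitePi (fun _ : V d =>
    ENNReal.ofReal (p : ℝ) • Measure.dirac true + ENNReal.ofReal (1 - (p : ℝ)) • Measure.dirac false)

/-- The percolation probability `θ_d(p)`. -/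
def theta (d : ℕ) (p : unitInterval) : ℝ := (P d p).real {ω | (cluster ω univ 0).Infinite}

/-- The critical point `p_c(d)`, the supremum of the parameters with `θ_d(p) = 0`. -/
def pc (d : ℕ) : unitInterval :=
  ⟨sSup {t : ℝ | ∃ q : unitInterval, (q : ℝ) = t ∧ theta d q = 0}, by
    constructor
    · apply Real.sSup_nonneg
      rintro x ⟨q, rfl, _⟩
      exact q.2.1
    · apply Real.sSup_le
      · rintro x ⟨q, rfl, _⟩
        exact q.2.2
      · exact zero_le_one⟩

lemma nd_mem {d : ℕ} {ω : V d → Bool} {x y : V d} :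
    (∀ c ∈ (Pool.Agent.Y990.CB.siteM d).nd x y, ω c = true) ↔ ω x = true ∧ ω y = true := by
  show (∀ c : V d, c ∈ ({x, y} : Finset (V d)) → ω c = true) ↔ _
  simp only [Finset.mem_insert, Finset.mem_singleton, forall_eq_or_imp, forall_eq]

open Pool.Agent.Y990.CB in
lemma adj_iff {d : ℕ} (ω : V d → Bool) (S : Set (V d)) (x y : V d) :
    (openGraph ω S).Adj x y ↔ (G (siteM d) ω S).Adj x y := by
  show (∑ i, |x i - y i| = 1 ∧ (x ∈ S ∧ ω x = true) ∧ (y ∈ S ∧ ω y = true)) ↔
    (∑ i, |x i - y i| = 1 ∧ x ∈ S ∧ y ∈ S ∧ ∀ c ∈ (siteM d).nd x y, ω c = true)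
  rw [nd_mem]
  tauto

open Pool.Agent.Y990.CB in
lemma graph_eq {d : ℕ} (ω : V d → Bool) (S : Set (V d)) :
    openGraph ω S = G (siteM d) ω S := by
  ext x y
  exact adj_iff ω S x y

open Pool.Agent.Y990.CB in
lemma cluster_sub {d : ℕ} (ω : V d → Bool) (S : Set (V d)) (x : V d) :
    cluster ω S x ⊆ cl (siteM d) ω S x := by
  rintro y ⟨-, h⟩
  rw [graph_eq] at h
  exact h

open Pool.Agent.Y990.CB in
lemma infinite_iff {d : ℕ} (ω : V d → Bool) (x : V d) :
    (cluster ω univ x).Infinite ↔ ω ∈ Perc (siteM d) x := by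
  constructor
  · intro h
    exact h.mono (cluster_sub ω univ x)
  · intro h
    have hx : ω x = true := by
      obtain ⟨y, hy, hyx⟩ := Set.Infinite.exists_notMem_finset h {x}
      have hyx' : y ≠ x := by simpa using hyx
      have hr : (G (siteM d) ω univ).Reachable x y := hy
      obtain ⟨q⟩ := hr
      cases q with
      | nil => exact absurd rfl hyx'
      | cons hadj _ => exact (nd_mem.1 hadj.2.2.2).1
    refine Set.Infinite.mono ?_ h
    intro y hy
    refine ⟨⟨hx, mem_univ x⟩, ?_⟩
    rw [graph_eq]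
    exact hy

open Pool.Agent.Y990.CB in
lemma P_eq (d : ℕ) (p : unitInterval) : P d p = mu (siteM d) p := rfl

open Pool.Agent.Y990.CB in
lemma theta_eq (d : ℕ) (p : unitInterval) : theta d p = th (siteM d) p := by
  unfold theta th
  rw [P_eq]
  congr 1
  ext ω
  exact infinite_iff ω 0

open Pool.Agent.Y990.CB in
lemma pc_eq (d : ℕ) : pc d = Pool.Agent.Y990.CB.pc (siteM d) := by
  apply Subtype.ext
  show sSup {t : ℝ | ∃ q : unitInterval, (q : ℝ) = t ∧ theta d q = 0} =
    sSup {x : ℝ | ∃ q : unitInterval, (q : ℝ) = x ∧ th (siteM d) q = 0}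
  simp only [theta_eq]

open Pool.Agent.Y990.CB in
lemma box_eq (d N : ℕ) : box d N = Bo (0 : V d) N := by
  ext x
  simp only [box, Bo, mem_ofPred_eq, Pi.zero_apply, sub_zero]

open Pool.Agent.Y990.CB in
lemma conn_eq {d : ℕ} (S : Set (V d)) {v : V d} (hv : v ≠ 0) :
    conn S 0 v = Cn (siteM d) S 0 v := by
  ext ω
  constructor
  · rintro ⟨-, h⟩
    rw [graph_eq] at h
    exact h
  · intro h
    have hr : (G (siteM d) ω S).Reachable 0 v := h
    have h0 : ω 0 = true ∧ (0 : V d) ∈ S := by
      obtain ⟨q⟩ := hr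
      cases q with
      | nil => exact absurd rfl hv
      | cons hadj _ => exact ⟨(nd_mem.1 hadj.2.2.2).1, hadj.2.1⟩
    refine ⟨h0, ?_⟩
    rw [graph_eq]
    exact h

open Pool.Agent.Y990.CB in
theorem aux (d : ℕ) (hd : 2 ≤ d) :
    (∀ R : ℕ, 1 ≤ R → ∀ ε : ℝ, 0 < ε →
      (∀ᶠ v : V d in cofinite, (P d (pc d)).real (conn (box d (R * nrm v)) 0 v) ≤
        (1 - 1 / (2 * 10 ^ 14 * R)) * theta d (pc d) ^ 2 + ε) ∧
      (∀ᶠ v : V d in cofinite, theta d (pc d) ^ 2 / (2 * 10 ^ 14 * R) - ε ≤
        (P d (pc d)).real (conn univ 0 v \ conn (box d (R * nrm v)) 0 v))) ∧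
    (theta d (pc d) = 0 ↔ ∀ R : ℕ, 1 ≤ R → Tendsto (fun v : V d =>
      (P d (pc d)).real (conn univ 0 v) - (P d (pc d)).real (conn (box d (R * nrm v)) 0 v))
        cofinite (𝓝 0)) ∧
    (theta d (pc d) = 0 ↔ ∃ R : ℕ, 1 ≤ R ∧ ∀ ε : ℝ, 0 < ε → ∃ᶠ v : V d in cofinite,
      (P d (pc d)).real (conn univ 0 v) - (P d (pc d)).real (conn (box d (R * nrm v)) 0 v) < ε) := by
  have hN : Nd (siteM d) := nd_site
  -- translation to the model of the modules
  have hne : ∀ᶠ v : V d in cofinite, v ≠ 0 := by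
    rw [eventually_cofinite]
    refine (Set.finite_singleton (0 : V d)).subset ?_
    intro v hv
    simpa using hv
  have hA : ∀ R : ℕ, 1 ≤ R → ∀ ε : ℝ, 0 < ε →
      ∀ᶠ v : V d in cofinite, (P d (pc d)).real (conn (box d (R * nrm v)) 0 v) ≤
        (1 - 1 / (2 * 10 ^ 14 * R)) * theta d (pc d) ^ 2 + ε := by
    intro R hR ε hε
    obtain ⟨N0, h⟩ := finB hd (siteM d) hN R hR ε hε
    filter_upwards [hne, Pool.Agent.N327.Perc.ev_nm (N0 := N0) h] with v hv hv2
    rw [conn_eq _ hv, box_eq, pc_eq, theta_eq, P_eq]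
    exact hv2
  have hB : Tendsto (fun v : V d => (P d (pc d)).real (conn univ 0 v)) cofinite
      (𝓝 (theta d (pc d) ^ 2)) := by
    have h := Pool.Agent.N327.Perc.two_tendsto (by omega) (siteM d) hN
    rw [← theta_eq, ← pc_eq] at h
    refine h.congr' ?_
    filter_upwards [hne] with v hv
    rw [conn_eq _ hv, P_eq]
    rfl
  have hθ0 : 0 ≤ theta d (pc d) := by
    unfold theta
    exact measureReal_nonneg
  have hprob : IsProbabilityMeasure (P d (pc d)) :=
    inferInstanceAs (IsProbabilityMeasure (mu (siteM d) (pc d)))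
  -- the difference
  have hsub : ∀ᶠ v : V d in cofinite, ∀ N : ℕ,
      (P d (pc d)).real (conn univ 0 v \ conn (box d N) 0 v) =
        (P d (pc d)).real (conn univ 0 v) - (P d (pc d)).real (conn (box d N) 0 v) := by
    filter_upwards [hne] with v hv N
    rw [conn_eq _ hv, conn_eq _ hv, P_eq]
    exact measureReal_sdiff (fun ω hω => reach_mono (subset_univ _) hω) (Cn_meas _ _ _ _)
  have hC : ∀ R : ℕ, 1 ≤ R → ∀ ε : ℝ, 0 < ε →
      ∀ᶠ v : V d in cofinite, theta d (pc d) ^ 2 / (2 * 10 ^ 14 * R) - ε ≤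
        (P d (pc d)).real (conn univ 0 v) -
          (P d (pc d)).real (conn (box d (R * nrm v)) 0 v) := by
    intro R hR ε hε
    filter_upwards [hA R hR (ε / 2) (by positivity),
      hB.eventually (lt_mem_nhds (show theta d (pc d) ^ 2 - ε / 2 < theta d (pc d) ^ 2 by
        linarith))] with v h1 h2
    have e : (1 - 1 / (2 * 10 ^ 14 * (R : ℝ))) * theta d (pc d) ^ 2 =
        theta d (pc d) ^ 2 - theta d (pc d) ^ 2 / (2 * 10 ^ 14 * (R : ℝ)) := by ring
    linarith
  have hnn : ∀ R : ℕ, ∀ᶠ v : V d in cofinite, 0 ≤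
      (P d (pc d)).real (conn univ 0 v) - (P d (pc d)).real (conn (box d (R * nrm v)) 0 v) := by
    intro R
    filter_upwards [hsub] with v hv
    rw [← hv]
    exact measureReal_nonneg
  refine ⟨fun R hR ε hε => ⟨hA R hR ε hε, ?_⟩, ⟨?_, ?_⟩, ⟨?_, ?_⟩⟩
  · filter_upwards [hC R hR ε hε, hsub] with v h1 h2
    rw [h2]
    exact h1
  · intro h R _
    rw [h] at hB
    have h0 : Tendsto (fun v : V d => (P d (pc d)).real (conn univ 0 v)) cofinite (𝓝 0) := by
      simpa using hB
    refine tendsto_of_tendsto_of_tendsto_of_le_of_le' tendsto_const_nhds h0 (hnn R) ?_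
    filter_upwards with v
    linarith [measureReal_nonneg (μ := P d (pc d)) (s := conn (box d (R * nrm v)) 0 v)]
  · intro h
    by_contra hne'
    have hθ : 0 < theta d (pc d) := lt_of_le_of_ne hθ0 (Ne.symm hne')
    have hpos : 0 < theta d (pc d) ^ 2 / (2 * 10 ^ 14 * ((1 : ℕ) : ℝ)) / 2 := by positivity
    have h1 := (h 1 le_rfl).eventually (gt_mem_nhds hpos)
    obtain ⟨N0, h0⟩ := finB hd (siteM d) hN 1 le_rfl 1 one_pos
    have h2 := hC 1 le_rfl _ hpos
    have : (cofinite : Filter (V d)).NeBot := by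
      have : Nonempty (Fin d) := ⟨⟨0, by omega⟩⟩
      infer_instance
    obtain ⟨v, h3, h4⟩ := (h1.and h2).exists
    linarith
  · intro h
    refine ⟨1, le_rfl, fun ε hε => ?_⟩
    rw [h] at hB
    have h0 : Tendsto (fun v : V d => (P d (pc d)).real (conn univ 0 v)) cofinite (𝓝 0) := by
      simpa using hB
    have : (cofinite : Filter (V d)).NeBot := by
      have : Nonempty (Fin d) := ⟨⟨0, by omega⟩⟩
      infer_instance
    refine Eventually.frequently ?_
    filter_upwards [h0.eventually (gt_mem_nhds hε)] with v hv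
    linarith [measureReal_nonneg (μ := P d (pc d)) (s := conn (box d (1 * nrm v)) 0 v)]
  · rintro ⟨R, hR, h⟩
    by_contra hne'
    have hθ : 0 < theta d (pc d) := lt_of_le_of_ne hθ0 (Ne.symm hne')
    have hRr : (1 : ℝ) ≤ R := by exact_mod_cast hR
    have hpos : 0 < theta d (pc d) ^ 2 / (2 * 10 ^ 14 * (R : ℝ)) / 2 := by positivity
    obtain ⟨v, h1, h2⟩ := ((h _ hpos).and_eventually (hC R hR _ hpos)).exists
    linarith

/-- **Connections inside boxes at the critical point.** At `p_c`, the probability that `0` and `v`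
are connected inside the box of radius `R ‖v‖` is at most `(1 - c / R) θ(p_c) ^ 2 + o(1)`; hence
`θ(p_c) = 0` as soon as, along some sequence of vertices and for some `R`, the restriction to this
box costs an asymptotically negligible probability. -/
theorem result (d : ℕ) (hd : 2 ≤ d) :
    (∀ R : ℕ, 1 ≤ R → ∀ ε : ℝ, 0 < ε → ∀ᶠ v : V d in cofinite,
      (P d (pc d)).real (conn (box d (R * nrm v)) 0 v) ≤
        (1 - 1 / (2 * 10 ^ 14 * R)) * theta d (pc d) ^ 2 + ε) ∧
    (theta d (pc d) = 0 ↔ ∃ R : ℕ, 1 ≤ R ∧ ∀ ε : ℝ, 0 < ε → ∃ᶠ v : V d in cofinite,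
      (P d (pc d)).real (conn univ 0 v) -
        (P d (pc d)).real (conn (box d (R * nrm v)) 0 v) < ε) :=
  ⟨fun R hR ε hε => ((aux d hd).1 R hR ε hε).1, (aux d hd).2.2⟩

end

end Pool.Agent.Results.MP_e13933_pr.RestrictedConnections
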