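import Pool.Agent.W783.Perc.Fin

set_option autoImplicit false

open MeasureTheory Set Filter
open scoped Topology

/-!
# Site percolation on `Z^d` with arbitrarily weak long-range bonds along parallel lines

`d = n + 1 ≥ 2`.  Vertices are the points of `Z × Z^n`; each is open with probability `a`.  To the
nearest-neighbour bonds of `Z^d` we add random bonds along the special lines, which are the lines
`Z × {y}` with all coordinates of `y` divisible by `m`: two points of a special line at distance
`k ≥ 2` are joined with probability `1 - exp (-β k^(-s))`, independently, where `1 < s < 2`.  The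
intensity `β > 0` may be arbitrarily small, and the special lines arbitrarily sparse (`m` large).

For every `β > 0` the model has no infinite cluster at its critical point; the critical points
converge to the critical point `p_c(d)` of nearest-neighbour site percolation as `β → 0`; and if the
additional bonds are cut off at a large length `K`, then the percolation probability at the critical
point of this model of finite range is at most `ε`, the critical point being within `ε` of `p_c(d)`.
-/

namespace Pool.Agent.Results.MP_e13933_pr.WeakLongRangeLines

open Pool.Agent.W783.PC

/-- **Continuity of the phase transition with weak long-range bonds along parallel lines.**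
`theta n a 1 β s m` is the probability that the origin of `Z^(n+1)` lies in an infinite cluster and
`acS n m s β` is the critical point in `a`; `thetaK`, `acSK` are the same when only the bonds of
length at most `K` are used, and `acZ n` is the critical point of nearest-neighbour site percolation
(all nearest-neighbour bonds are open). -/
theorem result (n m : ℕ) (s : ℝ) (hn : 1 ≤ n) (hm : 1 ≤ m) (hs : 1 < s) (hs2 : s < 2) :
    (∀ β : NNReal, 0 < β →
      0 < acS n m s β ∧ acS n m s β < 1 ∧ theta n (acS n m s β) 1 β s m = 0) ∧
    Tendsto (fun β : NNReal => (acS n m s β : ℝ)) (𝓝 0) (𝓝 (acZ n : ℝ)) ∧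
    ∀ ε : ℝ, 0 < ε → ∃ β0 : NNReal, 0 < β0 ∧ ∀ β : NNReal, 0 < β → β ≤ β0 →
      ∃ K0 : ℕ, ∀ K ≥ K0, |(acSK n m s β K : ℝ) - acZ n| ≤ ε ∧
        thetaK n (acSK n m s β K) 1 β s m K ≤ ε :=
  ⟨(site_main hn hm hs hs2).1, (site_main hn hm hs hs2).2,
    fun _ hε => site_finite hn hm hs hs2 hε⟩

end Pool.Agent.Results.MP_e13933_pr.WeakLongRangeLines
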